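import Mathlib
import Pool.Agent.H6.QL.Ifc

set_option autoImplicit false

/-!
# THEOREM QL, chapter 0: the world of a pseudo-expectation

`PE n K Γ` gives vectors `b S` with `⟨b S, b T⟩ = E (S ∆ T)` for `|S|, |T| ≤ K` (Gram matrix);
`X i` is the reflection in the orthogonal complement of the span of the `b S - b (S ∆ i)`; it
exchanges `b S` and `b (S ∆ i)`. No extension argument is needed.
-/

namespace Pool.H90.QL

open Pool.H6.QL Pool.Agent.H3.Frg

/-- The product over the clause `c` of `(1/2)(1 - sg b X i)`. -/
noncomputable def cq {H : Type} [NormedAddCommGroup H] [InnerProductSpace ℝ H] {V : Type}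
    (X : Option V → Op H) (c : List (V × Bool)) : Op H :=
  (c.map (fun l => (1 / 2 : ℝ) • ((1 : Op H) - sg l.2 • X (some l.1)))).prod

private lemma cq_nil {H : Type} [NormedAddCommGroup H] [InnerProductSpace ℝ H] {V : Type}
    (X : Option V → Op H) (p : H) : cq X [] p = p := by
  simp [cq]

private lemma cq_cons {H : Type} [NormedAddCommGroup H] [InnerProductSpace ℝ H] {V : Type}
    (X : Option V → Op H) (l : V × Bool) (c : List (V × Bool)) (p : H) :
    cq X (l :: c) p = (1 / 2 : ℝ) • (cq X c p - sg l.2 • X (some l.1) (cq X c p)) := by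
  simp [cq]

/-- Gram vectors. -/
private lemma gram {n K : ℕ} (E : Finset (Fin n) → ℝ)
    (hE : ∀ p : Finset (Fin n) → ℝ, (∀ S, K < S.card → p S = 0) →
      0 ≤ ∑ S, ∑ T, p S * p T * E (symmDiff S T)) :
    ∃ (m : ℕ) (b : Finset (Fin n) → EuclideanSpace ℝ (Fin m)),
      (∀ S T, S.card ≤ K → T.card ≤ K → inner ℝ (b S) (b T) = E (symmDiff S T)) ∧
      (∀ S, K < S.card → b S = 0) := by
  classical
  set M : Matrix (Finset (Fin n)) (Finset (Fin n)) ℝ :=
    fun S T => if S.card ≤ K ∧ T.card ≤ K then E (symmDiff S T) else 0 with hM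
  have hps : M.PosSemidef := by
    refine Matrix.PosSemidef.of_dotProduct_mulVec_nonneg ?_ ?_
    · ext S T
      simp only [hM, Matrix.conjTranspose_apply, star_trivial]
      by_cases h : S.card ≤ K ∧ T.card ≤ K
      · rw [if_pos h, if_pos ⟨h.2, h.1⟩, symmDiff_comm]
      · rw [if_neg h, if_neg (fun h' => h ⟨h'.2, h'.1⟩)]
    · intro x
      have h := hE (fun S => if S.card ≤ K then x S else 0)
        (fun S hS => if_neg (not_le.mpr hS))
      have heq : star x ⬝ᵥ M.mulVec x = ∑ S, ∑ T,
          (if S.card ≤ K then x S else 0) * (if T.card ≤ K then x T else 0) *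
            E (symmDiff S T) := by
        simp only [dotProduct, Matrix.mulVec, star_trivial, Finset.mul_sum]
        refine Finset.sum_congr rfl fun S _ => Finset.sum_congr rfl fun T _ => ?_
        simp only [hM]
        by_cases hS : S.card ≤ K
        · by_cases hT : T.card ≤ K
          · simp only [hS, hT, and_self, if_true]
            ring
          · simp [hT]
        · simp [hS]
      rw [heq]
      exact h
  obtain ⟨m, v, hv⟩ := Matrix.posSemidef_iff_eq_sum_vecMulVec.mp hps
  have hin : ∀ S T, inner ℝ (WithLp.toLp 2 (fun i => v i S) : EuclideanSpace ℝ (Fin m))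
      (WithLp.toLp 2 (fun i => v i T)) = M S T := by
    intro S T
    rw [hv]
    simp only [PiLp.inner_apply, Matrix.sum_apply, Matrix.vecMulVec_apply, Pi.star_apply,
      star_trivial]
    refine Finset.sum_congr rfl fun i _ => ?_
    simp [mul_comm]
  refine ⟨m, fun S => WithLp.toLp 2 (fun i => v i S), ?_, ?_⟩
  · intro S T hS hT
    rw [hin]
    simp only [hM]
    rw [if_pos ⟨hS, hT⟩]
  · intro S hS
    have h := hin S S
    rw [← @inner_self_eq_zero ℝ, h]
    simp only [hM]
    rw [if_neg (fun h' => absurd h'.1 (not_le.mpr hS))]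

private lemma card_sd {n : ℕ} (S : Finset (Fin n)) (i : Fin n) :
    (symmDiff S {i}).card ≤ S.card + 1 := by
  classical
  calc (symmDiff S {i}).card ≤ (S ∪ {i}).card := Finset.card_le_card (by
        intro x hx
        rw [Finset.mem_symmDiff] at hx
        rw [Finset.mem_union]
        tauto)
    _ ≤ S.card + 1 := by
        refine (Finset.card_union_le _ _).trans ?_
        simp

/-- The world with its Gram vectors. -/
theorem world_b {n K : ℕ} {Γ : Set (List (Fin n × Bool))} (h : PE n K Γ) :
    ∃ (m : ℕ) (X : Option (Fin n) → Op (EuclideanSpace ℝ (Fin m)))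
      (L : ℕ → Submodule ℝ (EuclideanSpace ℝ (Fin m)))
      (b : Finset (Fin n) → EuclideanSpace ℝ (Fin m)) (E : Finset (Fin n) → ℝ),
      IsWorld X L K ∧ X none = 1 ∧ ‖b ∅‖ = 1 ∧
      (∀ S k, S.card ≤ k → S.card ≤ K → b S ∈ L k) ∧
      (∀ i S, S.card ≤ K → (symmDiff S {i}).card ≤ K → X (some i) (b S) = b (symmDiff S {i})) ∧
      (∀ S T, S.card ≤ K → T.card ≤ K → inner ℝ (b S) (b T) = E (symmDiff S T)) ∧
      ∀ c ∈ Γ, ∀ k, k + c.length ≤ K → ∀ p ∈ L k, cq X c p = 0 := by
  classical
  obtain ⟨E, hE1, hE2, hE3⟩ := h
  obtain ⟨m, b, hb, hb0⟩ := gram E hE2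
  -- the subspaces
  set N : Fin n → Submodule ℝ (EuclideanSpace ℝ (Fin m)) := fun i =>
    Submodule.span ℝ {x | ∃ S : Finset (Fin n), S.card ≤ K ∧ (symmDiff S {i}).card ≤ K ∧
      x = b S - b (symmDiff S {i})} with hN
  set X : Option (Fin n) → Op (EuclideanSpace ℝ (Fin m)) := fun o =>
    match o with
    | none => 1
    | some i => ((N i)ᗮ.reflection.toContinuousLinearEquiv :
        EuclideanSpace ℝ (Fin m) →L[ℝ] EuclideanSpace ℝ (Fin m)) with hX
  have hXn : X none = 1 := rfl
  have hXs : ∀ i u, X (some i) u = (N i)ᗮ.reflection u := fun i u => rfl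
  set L : ℕ → Submodule ℝ (EuclideanSpace ℝ (Fin m)) := fun k =>
    Submodule.span ℝ {x | ∃ S : Finset (Fin n), S.card ≤ k ∧ S.card ≤ K ∧ x = b S} with hL
  have hbL : ∀ S k, S.card ≤ k → S.card ≤ K → b S ∈ L k := fun S k h1 h2 =>
    Submodule.subset_span ⟨S, h1, h2, rfl⟩
  -- X i exchanges b S and b (S ∆ i)
  have hex : ∀ i S, S.card ≤ K → (symmDiff S {i}).card ≤ K →
      X (some i) (b S) = b (symmDiff S {i}) := by
    intro i S h1 h2
    rw [hXs]
    have hm : b S - b (symmDiff S {i}) ∈ N i := Submodule.subset_span ⟨S, h1, h2, rfl⟩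
    have hp : b S + b (symmDiff S {i}) ∈ (N i)ᗮ := by
      rw [Submodule.mem_orthogonal]
      intro u hu
      induction hu using Submodule.span_induction with
      | mem x hx =>
        obtain ⟨T, hT1, hT2, rfl⟩ := hx
        rw [inner_sub_left, inner_add_right, inner_add_right, hb _ _ hT1 h1, hb _ _ hT1 h2,
          hb _ _ hT2 h1, hb _ _ hT2 h2]
        have e1 : symmDiff (symmDiff T {i}) (symmDiff S {i}) = symmDiff T S := by
          rw [symmDiff_symmDiff_symmDiff_comm]
          simp
        have e2 : symmDiff (symmDiff T {i}) S = symmDiff T (symmDiff S {i}) := by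
          rw [symmDiff_assoc, symmDiff_comm {i} S]
        rw [e1, e2]
        ring
      | zero => simp
      | add x y _ _ hx hy => rw [inner_add_left, hx, hy, add_zero]
      | smul a x _ hx => rw [inner_smul_left, hx, mul_zero]
    have r1 := Submodule.reflection_mem_subspace_orthogonal_precomplement_eq_neg hm
    have r2 := Submodule.reflection_mem_subspace_eq_self hp
    have e : b S = (1 / 2 : ℝ) • ((b S + b (symmDiff S {i})) + (b S - b (symmDiff S {i}))) := by
      module
    conv_lhs => rw [e]
    rw [map_smul, map_add, r1, r2]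
    module
  have hsdK : ∀ (S : Finset (Fin n)) (i : Fin n) (k : ℕ), S.card ≤ k → k + 1 ≤ K →
      (symmDiff S {i}).card ≤ k + 1 := fun S i k h1 _ => (card_sd S i).trans (by omega)
  have hworld : IsWorld X L K := by
    refine ⟨?_, ?_, ?_, ?_, ?_⟩
    · intro o
      ext1 u
      cases o with
      | none => simp [hXn]
      | some i =>
        rw [ContinuousLinearMap.mul_apply, hXs, hXs, Submodule.reflection_reflection]
        rfl
    · intro o u v
      cases o with
      | none => simp [hXn]
      | some i =>
        rw [hXs, hXs]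
        have h1 := (N i)ᗮ.reflection.inner_map_map u ((N i)ᗮ.reflection v)
        rw [Submodule.reflection_reflection] at h1
        exact h1
    · intro k l hkl
      refine Submodule.span_mono ?_
      rintro x ⟨S, h1, h2, rfl⟩
      exact ⟨S, h1.trans hkl, h2, rfl⟩
    · intro o k hk p hp
      cases o with
      | none =>
        rw [hXn, ContinuousLinearMap.one_apply]
        have hmono : L k ≤ L (k + 1) := by
          refine Submodule.span_mono ?_
          rintro x ⟨S, h1, h2, rfl⟩
          exact ⟨S, h1.trans (Nat.le_succ k), h2, rfl⟩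
        exact hmono hp
      | some i =>
        induction hp using Submodule.span_induction with
        | mem x hx =>
          obtain ⟨S, h1, h2, rfl⟩ := hx
          have h3 := hsdK S i k h1 hk
          rw [hex i S h2 (h3.trans hk)]
          exact hbL _ _ h3 (h3.trans hk)
        | zero => rw [map_zero]; exact Submodule.zero_mem _
        | add x y _ _ hx hy => rw [map_add]; exact Submodule.add_mem _ hx hy
        | smul a x _ hx => rw [map_smul]; exact Submodule.smul_mem _ a hx
    · intro o o' k hk p hp
      cases o with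
      | none => simp [hXn]
      | some i =>
        cases o' with
        | none => simp [hXn]
        | some j =>
          induction hp using Submodule.span_induction with
          | mem x hx =>
            obtain ⟨S, h1, h2, rfl⟩ := hx
            have hi := hsdK S i k h1 (by omega)
            have hj := hsdK S j k h1 (by omega)
            have hij := hsdK (symmDiff S {i}) j (k + 1) hi (by omega)
            have hji := hsdK (symmDiff S {j}) i (k + 1) hj (by omega)
            rw [hex j S h2 (by omega), hex i S h2 (by omega), hex i _ (by omega) (by omega),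
              hex j _ (by omega) (by omega), symmDiff_right_comm]
          | zero => simp
          | add x y _ _ hx hy => simp only [map_add, hx, hy]
          | smul a x _ hx => simp only [map_smul, hx]
  refine ⟨m, X, L, b, E, hworld, hXn, ?_, hbL, hex, hb, ?_⟩
  · have h1 := hb ∅ ∅ (by simp) (by simp)
    rw [real_inner_self_eq_norm_sq, symmDiff_self] at h1
    have h2 : ‖b ∅‖ ^ 2 = 1 := h1.trans hE1
    nlinarith [norm_nonneg (b ∅)]
  -- the clauses
  have hdeg : ∀ (c : List (Fin n × Bool)) (k : ℕ), k + c.length ≤ K → ∀ p ∈ L k,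
      cq X c p ∈ L (k + c.length) := by
    intro c
    induction c with
    | nil => intro k _ p hp; rw [cq_nil]; exact hp
    | cons l c ih =>
      intro k hk p hp
      rw [List.length_cons] at hk ⊢
      have h1 := ih k (by omega) p hp
      rw [cq_cons]
      refine Submodule.smul_mem _ _ (Submodule.sub_mem _ ?_ (Submodule.smul_mem _ _ ?_))
      · exact hworld.mono (by omega) h1
      · exact hworld.step (some l.1) (k + c.length) (by omega) _ h1
  have hcomm : ∀ (c : List (Fin n × Bool)) (S : Finset (Fin n)) (i : Fin n),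
      S.card + c.length + 1 ≤ K → X (some i) (cq X c (b S)) = cq X c (b (symmDiff S {i})) := by
    intro c
    induction c with
    | nil =>
      intro S i hS
      rw [List.length_nil] at hS
      have h1 := card_sd S i
      rw [cq_nil, cq_nil, hex i S (by omega) (by omega)]
    | cons l c ih =>
      intro S i hS
      rw [List.length_cons] at hS
      rw [cq_cons, cq_cons, map_smul, map_sub, map_smul,
        hworld.comm (some i) (some l.1) (S.card + c.length) (by omega) _
          (hdeg c S.card (by omega) _ (hbL S _ le_rfl (by omega))), ih S i (by omega)]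
  have hpe : ∀ (c : List (Fin n × Bool)) (S T : Finset (Fin n)), S.card + c.length ≤ K →
      T.card ≤ K → inner ℝ (cq X c (b S)) (b T) = pe E c (symmDiff S T) := by
    intro c
    induction c with
    | nil =>
      intro S T hS hT
      rw [List.length_nil] at hS
      rw [cq_nil, hb S T (by omega) hT]
      rfl
    | cons l c ih =>
      intro S T hS hT
      rw [List.length_cons] at hS
      have h1 := card_sd S l.1
      rw [cq_cons, inner_smul_left, inner_sub_left, inner_smul_left,
        hcomm c S l.1 (by omega), ih S T (by omega) hT, ih _ T (by omega) hT]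
      have e : symmDiff (symmDiff S {l.1}) T = symmDiff (symmDiff S T) {l.1} := by
        rw [symmDiff_right_comm]
      rw [e]
      simp only [conj_trivial]
      show _ = (pe E c (symmDiff S T) - sg l.2 * pe E c (symmDiff (symmDiff S T) {l.1})) / 2
      ring
  intro c hc k hk p hp
  induction hp using Submodule.span_induction with
  | mem x hx =>
    obtain ⟨S, h1, h2, rfl⟩ := hx
    have hmem : cq X c (b S) ∈ L (S.card + c.length) :=
      hdeg c S.card (by omega) _ (hbL S _ le_rfl h2)
    have horth : ∀ u ∈ L (S.card + c.length), inner ℝ (cq X c (b S)) u = 0 := by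
      intro u hu
      induction hu using Submodule.span_induction with
      | mem x hx =>
        obtain ⟨T, hT1, hT2, rfl⟩ := hx
        rw [hpe c S T (by omega) hT2]
        refine hE3 c hc _ ?_
        have h3 : (symmDiff S T).card ≤ S.card + T.card := by
          calc (symmDiff S T).card ≤ (S ∪ T).card := Finset.card_le_card (by
                intro x hx
                rw [Finset.mem_symmDiff] at hx
                rw [Finset.mem_union]
                tauto)
            _ ≤ S.card + T.card := Finset.card_union_le _ _
        omega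
      | zero => simp
      | add x y _ _ hx hy => rw [inner_add_right, hx, hy, add_zero]
      | smul a x _ hx => rw [inner_smul_right, hx, mul_zero]
    exact (@inner_self_eq_zero ℝ _ _ _ _ _).mp (horth _ hmem)
  | zero => rw [map_zero]
  | add x y _ _ hx hy => rw [map_add, hx, hy, add_zero]
  | smul a x _ hx => rw [map_smul, hx, smul_zero]

theorem world {n K : ℕ} {Γ : Set (List (Fin n × Bool))} (h : PE n K Γ) :
    ∃ (m : ℕ) (X : Option (Fin n) → Op (EuclideanSpace ℝ (Fin m)))
      (L : ℕ → Submodule ℝ (EuclideanSpace ℝ (Fin m))),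
      IsWorld X L K ∧ X none = 1 ∧ (∃ v ∈ L 0, ‖v‖ = 1) ∧
      ∀ c ∈ Γ, ∀ k, k + c.length ≤ K → ∀ p ∈ L k, cq X c p = 0 := by
  obtain ⟨m, X, L, b, E, h1, h2, h3, h4, -, -, h5⟩ := world_b h
  exact ⟨m, X, L, h1, h2, ⟨b ∅, h4 ∅ 0 (by simp) (by simp), h3⟩, h5⟩

end Pool.H90.QL
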