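import Mathlib
import Pool.Agent.H6.QL.RwDefs
import Pool.Agent.H90.QL.World

set_option autoImplicit false

/-!
# THEOREM QL, chapter 0: the ring world of a pseudo-expectation

`xx i`: the variable `i` with the values `1, -1`; `chr S`: the product of the `xx i`, `i ∈ S`; `cl` maps `chr S` to the Gram
vector `b S` (Fourier expansion); `dg k` is the span of the `chr S`, `|S| ≤ k`.
-/

namespace Pool.H90.QL

open Pool.H6.QL Pool.Agent.H3.Frg Pool.Agent.H81.QG

variable {n : ℕ}

/-- The variable with the values `1, -1`. -/
private def xx (i : Fin n) : Rn n := fun a => if a i = true then 1 else -1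

/-- The characters. -/
private noncomputable def chr (S : Finset (Fin n)) : Rn n :=
  fun a => ∏ i, (if i ∈ S then xx i a else 1)

private lemma xx_sq (i : Fin n) (a : Fin n → Bool) : xx i a * xx i a = 1 := by
  unfold xx
  by_cases h : a i = true
  · rw [if_pos h]
    norm_num
  · rw [if_neg h]
    norm_num

private lemma chr_mul (S T : Finset (Fin n)) : chr S * chr T = chr (symmDiff S T) := by
  funext a
  show (∏ i, (if i ∈ S then xx i a else 1)) * (∏ i, (if i ∈ T then xx i a else 1)) = _
  rw [← Finset.prod_mul_distrib]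
  refine Finset.prod_congr rfl fun i _ => ?_
  have h := xx_sq i a
  by_cases h1 : i ∈ S <;> by_cases h2 : i ∈ T <;> simp [Finset.mem_symmDiff, h1, h2, h]

private lemma chr_empty : chr (∅ : Finset (Fin n)) = 1 := by
  funext a
  simp [chr]

private lemma chr_single (i : Fin n) : chr {i} = xx i := by
  funext a
  show (∏ j, (if j ∈ ({i} : Finset (Fin n)) then xx j a else 1)) = xx i a
  rw [Finset.prod_eq_single i]
  · simp
  · intro j _ hj
    simp [hj]
  · intro h
    exact absurd (Finset.mem_univ i) h

private lemma chr_orth (S T : Finset (Fin n)) :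
    ∑ a : Fin n → Bool, chr S a * chr T a = if S = T then (2 : ℝ) ^ n else 0 := by
  classical
  have h1 : ∀ a : Fin n → Bool, chr S a * chr T a =
      ∏ i, (if i ∈ symmDiff S T then (if a i = true then (1 : ℝ) else -1) else 1) := by
    intro a
    have h2 : chr S a * chr T a = (chr S * chr T) a := rfl
    rw [h2, chr_mul]
    rfl
  rw [Finset.sum_congr rfl fun a _ => h1 a]
  have h3 := Finset.prod_univ_sum (fun _ : Fin n => (Finset.univ : Finset Bool))
    (fun i (x : Bool) => if i ∈ symmDiff S T then (if x = true then (1 : ℝ) else -1) else 1)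
  rw [Fintype.piFinset_univ] at h3
  rw [← h3]
  by_cases hST : S = T
  · rw [if_pos hST]
    subst hST
    have h4 : ∀ i : Fin n, (∑ x : Bool, if i ∈ symmDiff S S then (if x = true then (1 : ℝ) else -1) else 1) = 2 := by
      intro i
      simp
    rw [Finset.prod_congr rfl fun i _ => h4 i]
    simp
  · rw [if_neg hST]
    have h5 : (symmDiff S T).Nonempty := by
      rw [Finset.nonempty_iff_ne_empty]
      intro h6
      exact hST (symmDiff_eq_bot.mp h6)
    obtain ⟨i, hi⟩ := h5
    refine Finset.prod_eq_zero (Finset.mem_univ i) ?_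
    simp [hi]

private lemma fal_nil : fal ([] : List (Fin n × Bool)) = 1 := by
  funext a
  simp [fal]

private lemma fal_cons (l : Fin n × Bool) (c : List (Fin n × Bool)) :
    fal (l :: c) = (1 / 2 : ℝ) • (fal c - sg l.2 • (xx l.1 * fal c)) := by
  funext a
  rcases l with ⟨i, b⟩
  show (if ∀ l ∈ ((i, b) :: c : List (Fin n × Bool)), a l.1 ≠ l.2 then (1 : ℝ) else 0) =
    (1 / 2 : ℝ) * ((if ∀ l ∈ c, a l.1 ≠ l.2 then (1 : ℝ) else 0) -
      sg b * ((if a i = true then (1 : ℝ) else -1) * (if ∀ l ∈ c, a l.1 ≠ l.2 then (1 : ℝ) else 0)))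
  by_cases hc : ∀ l ∈ c, a l.1 ≠ l.2
  · rw [if_pos hc]
    by_cases hi : a i = b
    · have h1 : ¬ ∀ l ∈ ((i, b) :: c : List (Fin n × Bool)), a l.1 ≠ l.2 := fun h =>
        h (i, b) List.mem_cons_self hi
      rw [if_neg h1, hi]
      cases b <;> simp [sg]
    · have h1 : ∀ l ∈ ((i, b) :: c : List (Fin n × Bool)), a l.1 ≠ l.2 := by
        intro l hl
        rcases List.mem_cons.mp hl with rfl | hl
        · exact hi
        · exact hc l hl
      rw [if_pos h1]
      have h2 : a i = !b := by
        cases hb : b <;> cases ha : a i <;> simp_all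
      rw [h2]
      cases b <;> simp [sg] <;> norm_num
  · rw [if_neg hc]
    have h1 : ¬ ∀ l ∈ ((i, b) :: c : List (Fin n × Bool)), a l.1 ≠ l.2 := fun h =>
      hc fun l hl => h l (List.mem_cons_of_mem _ hl)
    rw [if_neg h1]
    ring

private lemma yy_eq (i : Fin n) : yy i = (1 / 2 : ℝ) • (1 + xx i) := by
  funext a
  show (if a i = true then (1 : ℝ) else 0) = (1 / 2 : ℝ) * (1 + (if a i = true then (1 : ℝ) else -1))
  by_cases h : a i = true
  · rw [if_pos h, if_pos h]
    norm_num
  · rw [if_neg h, if_neg h]
    norm_num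

/-- The filtration. -/
private noncomputable def dgn (n : ℕ) (k : ℕ) : Submodule ℝ (Rn n) :=
  Submodule.span ℝ {f | ∃ S : Finset (Fin n), S.card ≤ k ∧ f = chr S}

private lemma chr_mem {S : Finset (Fin n)} {k : ℕ} (h : S.card ≤ k) : chr S ∈ dgn n k :=
  Submodule.subset_span ⟨S, h, rfl⟩

private lemma dgn_mono : Monotone (dgn n) := by
  intro k l hkl
  refine Submodule.span_mono ?_
  rintro x ⟨S, h1, rfl⟩
  exact ⟨S, h1.trans hkl, rfl⟩

private lemma card_symm (S T : Finset (Fin n)) : (symmDiff S T).card ≤ S.card + T.card := by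
  classical
  calc (symmDiff S T).card ≤ (S ∪ T).card := Finset.card_le_card (by
        intro x hx
        rw [Finset.mem_symmDiff] at hx
        rw [Finset.mem_union]
        tauto)
    _ ≤ S.card + T.card := Finset.card_union_le _ _

private lemma dgn_mul {i j : ℕ} {p q : Rn n} (hp : p ∈ dgn n i) (hq : q ∈ dgn n j) : p * q ∈ dgn n (i + j) := by
  induction hp using Submodule.span_induction with
  | mem x hx =>
    obtain ⟨S, hS, rfl⟩ := hx
    induction hq using Submodule.span_induction with
    | mem y hy =>
      obtain ⟨T, hT, rfl⟩ := hy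
      rw [chr_mul]
      exact chr_mem ((card_symm S T).trans (by omega))
    | zero => rw [mul_zero]; exact Submodule.zero_mem _
    | add x y _ _ hx hy => rw [mul_add]; exact Submodule.add_mem _ hx hy
    | smul a x _ hx => rw [mul_smul_comm]; exact Submodule.smul_mem _ a hx
  | zero => rw [zero_mul]; exact Submodule.zero_mem _
  | add x y _ _ hx hy => rw [add_mul]; exact Submodule.add_mem _ hx hy
  | smul a x _ hx => rw [smul_mul_assoc]; exact Submodule.smul_mem _ a hx

/-- The class map. -/
private noncomputable def clm {m : ℕ} (b : Finset (Fin n) → EuclideanSpace ℝ (Fin m)) :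
    Rn n →ₗ[ℝ] EuclideanSpace ℝ (Fin m) where
  toFun f := ∑ S, ((2 : ℝ) ^ n)⁻¹ • (∑ a, f a * chr S a) • b S
  map_add' f g := by
    rw [← Finset.sum_add_distrib]
    refine Finset.sum_congr rfl fun S _ => ?_
    rw [← smul_add, ← add_smul, ← Finset.sum_add_distrib]
    congr 2
    refine Finset.sum_congr rfl fun a _ => ?_
    show (f a + g a) * chr S a = _
    ring
  map_smul' t f := by
    rw [RingHom.id_apply, Finset.smul_sum]
    refine Finset.sum_congr rfl fun S _ => ?_
    rw [smul_comm t, smul_smul t]
    congr 2
    rw [Finset.mul_sum]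
    refine Finset.sum_congr rfl fun a _ => ?_
    show (t * f a) * chr S a = _
    ring

private lemma clm_chr {m : ℕ} (b : Finset (Fin n) → EuclideanSpace ℝ (Fin m)) (S : Finset (Fin n)) :
    clm b (chr S) = b S := by
  show ∑ T, ((2 : ℝ) ^ n)⁻¹ • (∑ a, chr S a * chr T a) • b T = b S
  rw [Finset.sum_eq_single S]
  · rw [chr_orth, if_pos rfl, smul_smul, inv_mul_cancel₀ (by positivity), one_smul]
  · intro T _ hT
    rw [chr_orth, if_neg (fun h => hT h.symm), zero_smul, smul_zero]
  · intro h
    exact absurd (Finset.mem_univ S) h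

theorem rw_exists {n K : ℕ} {Gam : Set (List (Fin n × Bool))} (h : PE n K Gam) :
    ∃ (m : ℕ) (X : Option (Fin n) → Op (EuclideanSpace ℝ (Fin m)))
      (L : ℕ → Submodule ℝ (EuclideanSpace ℝ (Fin m))) (cl : Rn n →ₗ[ℝ] EuclideanSpace ℝ (Fin m))
      (dg : ℕ → Submodule ℝ (Rn n)), RW n K Gam X L cl dg := by
  classical
  obtain ⟨m, X, L, b, E, hW, hXn, hb0, hbL, hex, hb, hnull⟩ := world_b h
  refine ⟨m, X, L, clm b, dgn n, ?_⟩
  have hinto : ∀ k ≤ K, ∀ p ∈ dgn n k, clm b p ∈ L k := by
    intro k hk p hp
    induction hp using Submodule.span_induction with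
    | mem x hx =>
      obtain ⟨S, hS, rfl⟩ := hx
      rw [clm_chr]
      exact hbL S k hS (hS.trans hk)
    | zero => rw [map_zero]; exact Submodule.zero_mem _
    | add x y _ _ hx hy => rw [map_add]; exact Submodule.add_mem _ hx hy
    | smul a x _ hx => rw [map_smul]; exact Submodule.smul_mem _ a hx
  -- multiplication by a variable
  have hxm : ∀ (i : Fin n) (k : ℕ), 1 + k ≤ K → ∀ q ∈ dgn n k, clm b (xx i * q) = X (some i) (clm b q) := by
    intro i k hk q hq
    induction hq using Submodule.span_induction with
    | mem x hx =>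
      obtain ⟨S, hS, rfl⟩ := hx
      have h1 := card_symm S {i}
      rw [Finset.card_singleton] at h1
      rw [← chr_single, chr_mul, symmDiff_comm, clm_chr, clm_chr, hex i S (by omega) (by omega)]
    | zero => rw [mul_zero, map_zero, map_zero]
    | add x y _ _ hx hy => rw [mul_add, map_add, map_add, map_add, hx, hy]
    | smul a x _ hx => rw [mul_smul_comm, map_smul, map_smul, map_smul, hx]
  have hxx : ∀ i : Fin n, xx i ∈ dgn n 1 := by
    intro i
    rw [← chr_single]
    exact chr_mem (by simp)
  have h1 : (1 : Rn n) ∈ dgn n 0 := by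
    rw [← chr_empty]
    exact chr_mem (by simp)
  refine ⟨hW, hXn, ⟨dgn_mono, h1, fun i j p q hp hq => dgn_mul hp hq, ?_, ?_⟩, hinto, ?_, ?_, ?_, ?_⟩
  · rw [← chr_empty, clm_chr, hb0]
  · intro i j k p q r hp hq hr hij hik
    induction hp using Submodule.span_induction with
    | mem x hx =>
      obtain ⟨S, hS, rfl⟩ := hx
      induction hq using Submodule.span_induction with
      | mem y hy =>
        obtain ⟨T, hT, rfl⟩ := hy
        induction hr using Submodule.span_induction with
        | mem w hw =>
          obtain ⟨U, hU, rfl⟩ := hw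
          have e1 := card_symm S T
          have e2 := card_symm S U
          rw [chr_mul, chr_mul, clm_chr, clm_chr, clm_chr, clm_chr, hb _ _ (by omega) (by omega),
            hb _ _ (by omega) (by omega)]
          congr 1
          rw [symmDiff_comm S T, symmDiff_assoc]
        | zero => simp
        | add x y _ _ hx hy => rw [mul_add, map_add, map_add, inner_add_right, inner_add_right, hx, hy]
        | smul a x _ hx => rw [mul_smul_comm, map_smul, map_smul, inner_smul_right, inner_smul_right, hx]
      | zero => simp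
      | add x y _ _ hx hy => rw [mul_add, map_add, map_add, inner_add_left, inner_add_left, hx, hy]
      | smul a x _ hx => rw [mul_smul_comm, map_smul, map_smul, inner_smul_left, inner_smul_left, hx]
    | zero => simp
    | add x y _ _ hx hy =>
      rw [add_mul, add_mul, map_add, map_add, inner_add_left, inner_add_right, hx, hy]
    | smul a x _ hx =>
      rw [smul_mul_assoc, smul_mul_assoc, map_smul, map_smul, inner_smul_left, inner_smul_right, hx]
      simp
  · -- lift
    intro a A hA
    unfold W at hA
    induction hA using Submodule.span_induction with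
    | mem B hB =>
      obtain ⟨l, hl, rfl⟩ := hB
      induction l generalizing a with
      | nil =>
        refine ⟨1, dgn_mono (Nat.zero_le a) h1, fun b' _ q _ => ?_⟩
        rw [one_mul]
        simp
      | cons o l ih =>
        rw [List.length_cons] at hl
        obtain ⟨r, hr, hr2⟩ := ih (a - 1) (by omega)
        cases o with
        | none =>
          refine ⟨r, dgn_mono (by omega) hr, fun b' hb' q hq => ?_⟩
          rw [List.map_cons, List.prod_cons, hXn, one_mul]
          exact hr2 b' (by omega) q hq
        | some i =>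
          refine ⟨xx i * r, ?_, fun b' hb' q hq => ?_⟩
          · have h2 := dgn_mul (hxx i) hr
            exact dgn_mono (by omega) h2
          · rw [List.map_cons, List.prod_cons, ContinuousLinearMap.mul_apply, mul_assoc,
              hxm i (a - 1 + b') (by omega) _ (dgn_mul hr hq), hr2 b' (by omega) q hq]
    | zero =>
      refine ⟨0, Submodule.zero_mem _, fun b' _ q _ => ?_⟩
      rw [zero_mul, map_zero]
      rfl
    | add B C _ _ hB hC =>
      obtain ⟨r, hr, hr2⟩ := hB
      obtain ⟨r', hr', hr2'⟩ := hC
      refine ⟨r + r', Submodule.add_mem _ hr hr', fun b' hb' q hq => ?_⟩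
      rw [add_mul, map_add, hr2 b' hb' q hq, hr2' b' hb' q hq]
      rfl
    | smul t B _ hB =>
      obtain ⟨r, hr, hr2⟩ := hB
      refine ⟨t • r, Submodule.smul_mem _ t hr, fun b' hb' q hq => ?_⟩
      rw [smul_mul_assoc, map_smul, hr2 b' hb' q hq]
      rfl
  · intro i
    rw [yy_eq]
    exact Submodule.smul_mem _ _ (Submodule.add_mem _ (dgn_mono (Nat.zero_le 1) h1) (hxx i))
  · intro i k hk q hq
    rw [yy_eq, smul_mul_assoc, map_smul, add_mul, one_mul, map_add, hxm i k hk q hq]
  · -- null
    intro c hc k hk q hq
    have hfal : ∀ c : List (Fin n × Bool), fal c ∈ dgn n c.length := by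
      intro c
      induction c with
      | nil => rw [fal_nil]; exact h1
      | cons l c ih =>
        rw [fal_cons, List.length_cons]
        refine Submodule.smul_mem _ _ (Submodule.sub_mem _ (dgn_mono (by omega) ih)
          (Submodule.smul_mem _ _ ?_))
        have h2 := dgn_mul (hxx l.1) ih
        rw [add_comm] at h2
        exact h2
    have hcq : ∀ c : List (Fin n × Bool), k + c.length ≤ K → clm b (fal c * q) = cq X c (clm b q) := by
      intro c
      induction c with
      | nil =>
        intro _
        rw [fal_nil, one_mul]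
        simp [cq]
      | cons l c ih =>
        intro hkc
        rw [List.length_cons] at hkc
        have e1 : cq X (l :: c) (clm b q) =
            (1 / 2 : ℝ) • (cq X c (clm b q) - sg l.2 • X (some l.1) (cq X c (clm b q))) := by
          simp [cq]
        rw [e1, ← ih (by omega), fal_cons, smul_mul_assoc, map_smul, sub_mul, map_sub, smul_mul_assoc,
          map_smul, mul_assoc, hxm l.1 (c.length + k) (by omega) _ (dgn_mul (hfal c) hq)]
    rw [hcq c hk]
    exact hnull c hc k hk _ (hinto k (by omega) q hq)

end Pool.H90.QL
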