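import Mathlib
import Pool.Agent.H6.QL.Ifc
import Pool.Agent.H90.QL.World

set_option autoImplicit false

/-!
# THEOREM QL, chapter 0: the axioms are true up to a small error
-/

namespace Pool.H90.QL

open Pool.H6.QL Pool.Agent.H3.Frg

variable {H : Type} [NormedAddCommGroup H] [InnerProductSpace ℝ H] {V : Type}

private lemma norm_X {ι : Type} {X : ι → Op H} {L : ℕ → Submodule ℝ H} {K : ℕ}
    (hX : IsWorld X L K) (i : ι) (u : H) : ‖X i u‖ = ‖u‖ := by
  have h1 : inner ℝ (X i u) (X i u) = inner ℝ u u := by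
    rw [hX.sym i u (X i u)]
    have h2 : X i (X i u) = (X i * X i) u := rfl
    rw [h2, hX.sq i]
    rfl
  rw [real_inner_self_eq_norm_sq, real_inner_self_eq_norm_sq] at h1
  exact (sq_eq_sq₀ (norm_nonneg _) (norm_nonneg _)).mp h1

private lemma cqc (X : Option V → Op H) (l : V × Bool) (c : List (V × Bool)) (p : H) :
    cq X (l :: c) p = (1 / 2 : ℝ) • (cq X c p - sg l.2 • X (some l.1) (cq X c p)) := by
  simp [cq]

private lemma cqn (X : Option V → Op H) (p : H) : cq X [] p = p := by
  simp [cq]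

private lemma cq_mem {X : Option V → Op H} {L : ℕ → Submodule ℝ H} {K : ℕ}
    (hX : IsWorld X L K) : ∀ (c : List (V × Bool)) (k : ℕ), k + c.length ≤ K → ∀ p ∈ L k,
      cq X c p ∈ L (k + c.length) := by
  intro c
  induction c with
  | nil => intro k _ p hp; rw [cqn]; exact hp
  | cons l c ih =>
    intro k hk p hp
    rw [List.length_cons] at hk ⊢
    have h1 := ih k (by omega) p hp
    rw [cqc]
    refine Submodule.smul_mem _ _ (Submodule.sub_mem _ ?_ (Submodule.smul_mem _ _ ?_))
    · exact hX.mono (by omega) h1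
    · exact hX.step (some l.1) (k + c.length) (by omega) _ h1

private lemma q_norm {X : Option V → Op H} {L : ℕ → Submodule ℝ H} {K : ℕ}
    (hX : IsWorld X L K) (l : V × Bool) (p : H) :
    ‖(1 / 2 : ℝ) • (p - sg l.2 • X (some l.1) p)‖ ≤ ‖p‖ := by
  rw [norm_smul]
  have h1 : ‖p - sg l.2 • X (some l.1) p‖ ≤ ‖p‖ + ‖p‖ := by
    refine (norm_sub_le _ _).trans ?_
    rw [norm_smul, norm_X hX]
    have h2 : ‖sg l.2‖ = 1 := by
      cases l.2 <;> simp [sg]
    rw [h2, one_mul]
  have h3 : ‖(1 / 2 : ℝ)‖ = 1 / 2 := by norm_num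
  rw [h3]
  linarith

private lemma cq_norm {X : Option V → Op H} {L : ℕ → Submodule ℝ H} {K : ℕ}
    (hX : IsWorld X L K) : ∀ (c : List (V × Bool)) (p : H), ‖cq X c p‖ ≤ ‖p‖ := by
  intro c
  induction c with
  | nil => intro p; rw [cqn]
  | cons l c ih =>
    intro p
    rw [cqc]
    exact (q_norm hX l _).trans (ih p)

private lemma litF_leaves (l : V × Bool) : (litF l).leaves = 1 := by
  rcases l with ⟨i, b⟩
  cases b <;> simp [litF, Fm.leaves]

lemma clF_leaves : ∀ (c : List (V × Bool)) (a : V × Bool),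
    (clF a c).leaves = c.length + 1 := by
  intro c
  induction c with
  | nil => intro a; simp [clF, litF_leaves]
  | cons b c ih =>
    intro a
    rw [clF, Fm.leaves, Fm.leaves, litF_leaves, ih b, List.length_cons]
    omega

/-- `T (¬ literal)`. -/
private lemma neg_lit {X : Option V → Op H} {L : ℕ → Submodule ℝ H} {K R s : ℕ} {E : ℝ}
    {T : Fm V → Op H} (hT : FHom X L K R E s T) (hs : 1 ≤ s) (l : V × Bool) (k : ℕ)
    (hk : k + 8 * R ≤ K) (p : H) (hp : p ∈ L k) :
    ‖T (Fm.neg (litF l)) p - (1 / 2 : ℝ) • (p - sg l.2 • X (some l.1) p)‖ ≤ 3 * E * ‖p‖ ∧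
    ‖T (litF l) p - (p - (1 / 2 : ℝ) • (p - sg l.2 • X (some l.1) p))‖ ≤ 2 * E * ‖p‖ := by
  rcases l with ⟨i, b⟩
  have hv : ‖T (Fm.var i) p - (1 / 2 : ℝ) • (p + X (some i) p)‖ ≤ E * ‖p‖ := by
    have h1 := (T (Fm.var i) - (1 / 2 : ℝ) • (1 + X (some i))).le_opNorm p
    have h2 := mul_le_mul_of_nonneg_right (hT.var i) (norm_nonneg p)
    exact h1.trans h2
  have hE : 0 ≤ E * ‖p‖ := (norm_nonneg _).trans hv
  have hn := hT.neg (Fm.var i) hs k hk p hp
  cases b with
  | true =>
    have e1 : litF (i, true) = Fm.var i := by simp [litF]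
    rw [e1]
    simp only [sg, if_true, one_smul]
    constructor
    · have e : T (Fm.neg (Fm.var i)) p - (1 / 2 : ℝ) • (p - X (some i) p)
          = (T (Fm.neg (Fm.var i)) p - (p - T (Fm.var i) p))
            - (T (Fm.var i) p - (1 / 2 : ℝ) • (p + X (some i) p)) := by module
      rw [e]
      refine (norm_sub_le _ _).trans ?_
      linarith
    · have e : T (Fm.var i) p - (p - (1 / 2 : ℝ) • (p - X (some i) p))
          = T (Fm.var i) p - (1 / 2 : ℝ) • (p + X (some i) p) := by module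
      rw [e]
      linarith
  | false =>
    have e1 : litF (i, false) = Fm.neg (Fm.var i) := by simp [litF]
    rw [e1]
    have hnn := hT.neg (Fm.neg (Fm.var i)) hs k hk p hp
    have e2 : sg false = -1 := by simp [sg]
    simp only [e2, neg_smul, one_smul, sub_neg_eq_add]
    constructor
    · have e : T (Fm.neg (Fm.neg (Fm.var i))) p - (1 / 2 : ℝ) • (p + X (some i) p)
          = (T (Fm.neg (Fm.neg (Fm.var i))) p - (p - T (Fm.neg (Fm.var i)) p))
            - (T (Fm.neg (Fm.var i)) p - (p - T (Fm.var i) p))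
            + (T (Fm.var i) p - (1 / 2 : ℝ) • (p + X (some i) p)) := by module
      rw [e]
      refine (norm_add_le _ _).trans ?_
      have h1 := norm_sub_le (T (Fm.neg (Fm.neg (Fm.var i))) p - (p - T (Fm.neg (Fm.var i)) p))
        (T (Fm.neg (Fm.var i)) p - (p - T (Fm.var i) p))
      linarith
    · have e : T (Fm.neg (Fm.var i)) p - (p - (1 / 2 : ℝ) • (p + X (some i) p))
          = (T (Fm.neg (Fm.var i)) p - (p - T (Fm.var i) p))
            - (T (Fm.var i) p - (1 / 2 : ℝ) • (p + X (some i) p)) := by module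
      rw [e]
      refine (norm_sub_le _ _).trans ?_
      linarith

/-- `T (clause)` is `1 -` the product. -/
theorem cl_cq {X : Option V → Op H} {L : ℕ → Submodule ℝ H} {K R s : ℕ} {E : ℝ}
    {T : Fm V → Op H} (hX : IsWorld X L K) (hT : FHom X L K R E s T) (hE : 0 ≤ E) (hE1 : E ≤ 1) :
    ∀ (c : List (V × Bool)) (a : V × Bool), c.length + 1 ≤ s →
      ∀ k, k + (c.length + 1) + 8 * R ≤ K → ∀ p ∈ L k,
        ‖T (clF a c) p - (p - cq X (a :: c) p)‖ ≤ (3 * 2 ^ (c.length + 1) - 4) * E * ‖p‖ := by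
  intro c
  induction c with
  | nil =>
    intro a hs k hk p hp
    rw [List.length_nil] at hs hk
    have h := (neg_lit hT hs a k (by omega) p hp).2
    rw [cqc, cqn]
    have e : clF a [] = litF a := rfl
    rw [e]
    refine h.trans (le_of_eq ?_)
    norm_num
  | cons b c ih =>
    intro a hs k hk p hp
    rw [List.length_cons] at hs hk
    have e : clF a (b :: c) = Fm.imp (Fm.neg (litF a)) (clF b c) := rfl
    have h1 := ih b (by omega) k (by omega) p hp
    have hl : (Fm.imp (Fm.neg (litF a)) (clF b c)).leaves ≤ s := by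
      rw [Fm.leaves, Fm.leaves, litF_leaves, clF_leaves]
      omega
    have h2 := hT.imp _ _ hl k (by omega) p hp
    have hQ : cq X (b :: c) p ∈ L (k + (c.length + 1)) := by
      have := cq_mem hX (b :: c) k (by rw [List.length_cons]; omega) p hp
      rwa [List.length_cons] at this
    have hQn := cq_norm hX (b :: c) p
    have h3 := (neg_lit hT (by omega) a (k + (c.length + 1)) (by omega) _ hQ).1
    have hTn : ‖T (Fm.neg (litF a))‖ ≤ 2 := by
      have := (hT.norm (Fm.neg (litF a)) (by rw [Fm.leaves, litF_leaves]; omega)).1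
      linarith
    rw [e, cqc X a (b :: c)]
    set Q := cq X (b :: c) p with hQdef
    set A := T (Fm.neg (litF a)) with hA
    set B := T (clF b c) with hB
    set q := (1 / 2 : ℝ) • (Q - sg a.2 • X (some a.1) Q) with hq
    have e2 : T (Fm.imp (Fm.neg (litF a)) (clF b c)) p - (p - q)
        = (T (Fm.imp (Fm.neg (litF a)) (clF b c)) p - (p - A p + A (B p)))
          + A (B p - (p - Q)) - (A Q - q) := by
      rw [map_sub, map_sub]
      abel
    rw [e2]
    have h4 : ‖A (B p - (p - Q))‖ ≤ 2 * ((3 * 2 ^ (c.length + 1) - 4) * E * ‖p‖) := by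
      refine (A.le_opNorm _).trans ?_
      exact mul_le_mul hTn h1 (norm_nonneg _) (by norm_num)
    have h5 : ‖A Q - q‖ ≤ 3 * E * ‖p‖ := by
      refine h3.trans ?_
      exact mul_le_mul_of_nonneg_left hQn (by positivity)
    refine (norm_sub_le _ _).trans ?_
    have h6 := norm_add_le (T (Fm.imp (Fm.neg (litF a)) (clF b c)) p - (p - A p + A (B p)))
      (A (B p - (p - Q)))
    have e3 : (3 * (2 : ℝ) ^ ((b :: c).length + 1) - 4) * E * ‖p‖
        = 2 * ((3 * 2 ^ (c.length + 1) - 4) * E * ‖p‖) + 4 * E * ‖p‖ := by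
      rw [List.length_cons, pow_succ]
      ring
    rw [e3]
    linarith

/-- The axioms are true up to `3 * 2 ^ w * E`. -/
theorem ax_true {X : Option V → Op H} {L : ℕ → Submodule ℝ H} {K R s : ℕ} {E : ℝ}
    {T : Fm V → Op H} (hX : IsWorld X L K) (hT : FHom X L K R E s T) (hE : 0 ≤ E) (hE1 : E ≤ 1)
    (c : List (V × Bool)) (a : V × Bool) (hs : c.length + 1 ≤ s)
    (hq : ∀ k, k + (a :: c).length ≤ K → ∀ p ∈ L k, cq X (a :: c) p = 0) :
    ∀ k, k + (c.length + 1) + 8 * R ≤ K → ∀ p ∈ L k,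
      ‖T (clF a c) p - p‖ ≤ 3 * 2 ^ (c.length + 1) * E * ‖p‖ := by
  intro k hk p hp
  have h := cl_cq hX hT hE hE1 c a hs k hk p hp
  rw [hq k (by rw [List.length_cons]; omega) p hp, sub_zero] at h
  refine h.trans ?_
  have : 0 ≤ E * ‖p‖ := mul_nonneg hE (norm_nonneg _)
  nlinarith

end Pool.H90.QL
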